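import Mathlib
import Pool.Agent.X86.DC.Main

set_option autoImplicit false

/-!
# Weighted backward shifts with an exact distributional chaos exponent (MP_39b2af_an, Q1): yes

For every `λ ∈ (0, 1]` and every one of the spaces `ℓ^p` (`1 ≤ p < ∞`), `c₀` there is a bounded
sequence of positive weights whose backward shift is densely `λ`-distributionally chaotic but not
`λ'`-distributionally chaotic for any `λ' ∈ (0, λ)`.

Construction.  `ω_{n+1} = exp (Λ(n+1) - Λ(n))`, where `Λ = ∑ χ_k` and `χ_k` is a tent of height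
`5^k` and width about `P_{k+1}^λ / k` repeated with period `P_{k+1}`, `P_k ∣ P_{k+1}` and `P_{k+1}`
is a huge power of `P_k`.  Shifts by multiples of the periods change `Λ` by at most `4`, which gives
`N^{λ'}` times up to `N` at which `‖T^t‖ ≤ e^4`.
-/

namespace Pool.Agent.Results.MP_39b2af_an.ExactExponent

open Filter Topology
open scoped ENNReal ZeroAtInfty

/-- The lower `q`-density `liminf |A ∩ [1, n^q]| / n`, computed in `[0, ∞]`. -/
noncomputable def lowerDensity (q : ℝ) (A : Set ℕ) : ℝ≥0∞ :=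
  liminf (fun n : ℕ => ({j : ℕ | j ∈ A ∧ 1 ≤ j ∧ (j : ℝ) ≤ (n : ℝ) ^ q}.ncard : ℝ≥0∞) / n) atTop

/-- The set `D` witnesses that `T` is `lam`-distributionally chaotic. -/
def IsScrambled {𝕜 X : Type} [RCLike 𝕜] [NormedAddCommGroup X] [NormedSpace 𝕜 X] (lam : ℝ)
    (T : X →L[𝕜] X) (D : Set X) : Prop :=
  ¬ D.Countable ∧ ∃ σ : ℝ, 0 < σ ∧ ∀ x ∈ D, ∀ y ∈ D, x ≠ y →
    lowerDensity (1 / lam) {j | ‖(T ^ j) x - (T ^ j) y‖ < σ} = 0 ∧
    ∀ ε : ℝ, 0 < ε → lowerDensity (1 / lam) {j | ε < ‖(T ^ j) x - (T ^ j) y‖} = 0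

/-- `lam`-distributional chaos. -/
def Chaotic {𝕜 X : Type} [RCLike 𝕜] [NormedAddCommGroup X] [NormedSpace 𝕜 X] (lam : ℝ)
    (T : X →L[𝕜] X) : Prop := ∃ D : Set X, IsScrambled lam T D

/-- Dense `lam`-distributional chaos. -/
def DenselyChaotic {𝕜 X : Type} [RCLike 𝕜] [NormedAddCommGroup X] [NormedSpace 𝕜 X] (lam : ℝ)
    (T : X →L[𝕜] X) : Prop := ∃ D : Set X, Dense D ∧ IsScrambled lam T D

/-- On the sequence space `X` (with `n`-th coordinate `c x n`) some weighted backward shift `T`,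
`(T x)_n = ω_{n+1} x_{n+1}`, with bounded positive weights `ω` is densely `lam`-distributionally
chaotic but not `lam'`-distributionally chaotic for any `lam' ∈ (0, lam)`. -/
def HasExactShift (𝕜 X : Type) [RCLike 𝕜] [NormedAddCommGroup X] [NormedSpace 𝕜 X]
    (c : X → ℕ → 𝕜) (lam : ℝ) : Prop :=
  ∃ ω : ℕ → ℝ, (∀ n, 0 < ω n) ∧ (∃ C, ∀ n, ω n ≤ C) ∧ ∃ T : X →L[𝕜] X,
    (∀ x n, c (T x) n = ((ω (n + 1) : ℝ) : 𝕜) * c x (n + 1)) ∧ DenselyChaotic lam T ∧
    ∀ lam' : ℝ, 0 < lam' → lam' < lam → ¬ Chaotic lam' T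

open Pool.Agent.X86.DC.Seq

/-- `ℓ^p` as a sequence space. -/
noncomputable def lpSpace (𝕜 : Type) [RCLike 𝕜] (p : ℝ≥0∞) [Fact (1 ≤ p)] (hp : p ≠ ⊤) :
    SeqSpace 𝕜 (lp (fun _ : ℕ => 𝕜) p) where
  c :=
    { toFun := fun x n => x n
      map_add' := fun _ _ => rfl
      map_smul' := fun _ _ => rfl }
  inj := fun x y h => lp.ext h
  norm_le := fun x n => lp.norm_apply_le_norm (zero_lt_one.trans_le Fact.out).ne' x n
  solid := by
    intro C t x z hC hz
    have hp0 : 0 < p.toReal := ENNReal.toReal_pos (zero_lt_one.trans_le Fact.out).ne' hp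
    have hz' : ∀ n, ‖z n‖ ≤ C * ‖x (n + t)‖ := hz
    have hsum : ∀ s : Finset ℕ, ∑ i ∈ s, ‖z i‖ ^ p.toReal ≤ (C * ‖x‖) ^ p.toReal := by
      intro s
      calc ∑ i ∈ s, ‖z i‖ ^ p.toReal ≤ ∑ i ∈ s, C ^ p.toReal * ‖x (i + t)‖ ^ p.toReal := by
            refine Finset.sum_le_sum fun i _ => ?_
            rw [← Real.mul_rpow hC (norm_nonneg _)]
            exact Real.rpow_le_rpow (norm_nonneg _) (hz' i) hp0.le
        _ = C ^ p.toReal * ∑ i ∈ s, ‖x (i + t)‖ ^ p.toReal := by rw [Finset.mul_sum]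
        _ = C ^ p.toReal * ∑ j ∈ s.image (· + t), ‖x j‖ ^ p.toReal := by
            rw [Finset.sum_image (fun a _ b _ h => Nat.add_right_cancel h)]
        _ ≤ C ^ p.toReal * ‖x‖ ^ p.toReal := by
            have := lp.sum_rpow_le_norm_rpow hp0 x (s.image (· + t))
            gcongr
        _ = (C * ‖x‖) ^ p.toReal := by rw [Real.mul_rpow hC (norm_nonneg _)]
    have hmem : Memℓp z p := memℓp_gen' hsum
    refine ⟨⟨z, hmem⟩, rfl, ?_⟩
    exact lp.norm_le_of_forall_sum_le hp0 (by positivity) hsum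
  e := fun n => lp.single p n 1
  c_e := fun n => rfl
  norm_e := fun n => by
    rw [lp.norm_single (zero_lt_one.trans_le Fact.out)]; simp
  span_dense := by
    intro x
    refine mem_closure_of_tendsto (lp.hasSum_single hp x) (Eventually.of_forall fun s => ?_)
    refine Submodule.sum_mem _ fun i _ => ?_
    have e : lp.single p i (x i) = (x i) • (lp.single p i (1 : 𝕜) : lp (fun _ : ℕ => 𝕜) p) := by
      refine lp.ext ?_
      funext j
      rw [lp.coeFn_smul, Pi.smul_apply, lp.single_apply, lp.single_apply]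
      by_cases h : j = i
      · subst h; simp
      · rw [Pi.single_eq_of_ne h, Pi.single_eq_of_ne h, smul_zero]
    rw [e]
    exact Submodule.smul_mem _ _ (Submodule.subset_span ⟨i, rfl⟩)

/-- `c₀` functions from sequences tending to zero. -/
noncomputable def mkC0 {𝕜 : Type} [RCLike 𝕜] (z : ℕ → 𝕜) (hz : Tendsto z atTop (𝓝 0)) : C₀(ℕ, 𝕜) where
  toFun := z
  continuous_toFun := continuous_of_discreteTopology
  zero_at_infty' := by
    rw [cocompact_eq_cofinite, Nat.cofinite_eq_atTop]; exact hz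

lemma tendsto_c0 {𝕜 : Type} [RCLike 𝕜] (x : C₀(ℕ, 𝕜)) : Tendsto (fun n => x n) atTop (𝓝 0) := by
  have := zero_at_infty x
  rwa [cocompact_eq_cofinite, Nat.cofinite_eq_atTop] at this

lemma norm_c0_apply {𝕜 : Type} [RCLike 𝕜] (x : C₀(ℕ, 𝕜)) (n : ℕ) : ‖x n‖ ≤ ‖x‖ := by
  rw [← ZeroAtInftyContinuousMap.norm_toBCF_eq_norm]
  exact x.toBCF.norm_coe_le_norm n

lemma norm_c0_le {𝕜 : Type} [RCLike 𝕜] {x : C₀(ℕ, 𝕜)} {C : ℝ} (hC : 0 ≤ C)
    (h : ∀ n, ‖x n‖ ≤ C) : ‖x‖ ≤ C := by
  rw [← ZeroAtInftyContinuousMap.norm_toBCF_eq_norm]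
  exact (BoundedContinuousFunction.norm_le hC).2 h

lemma tendsto_single {𝕜 : Type} [RCLike 𝕜] (n : ℕ) :
    Tendsto (Pi.single n (1 : 𝕜) : ℕ → 𝕜) atTop (𝓝 0) := by
  refine tendsto_const_nhds.congr' ?_
  filter_upwards [eventually_gt_atTop n] with m hm
  rw [Pi.single_eq_of_ne (by omega)]

/-- `c₀` as a sequence space. -/
noncomputable def c0Space (𝕜 : Type) [RCLike 𝕜] : SeqSpace 𝕜 C₀(ℕ, 𝕜) where
  c :=
    { toFun := fun x n => x n
      map_add' := fun _ _ => rfl
      map_smul' := fun _ _ => rfl }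
  inj := fun x y h => ZeroAtInftyContinuousMap.ext fun n => congrFun h n
  norm_le := fun x n => norm_c0_apply x n
  solid := by
    intro C t x z hC hz
    have hz' : ∀ n, ‖z n‖ ≤ C * ‖x (n + t)‖ := hz
    have h1 : Tendsto (fun n => C * ‖x (n + t)‖) atTop (𝓝 0) := by
      have h2 := (tendsto_c0 x).comp (tendsto_add_atTop_nat t)
      have h3 := (h2.norm).const_mul C
      simpa using h3
    refine ⟨mkC0 z (squeeze_zero_norm hz' h1), rfl, norm_c0_le (by positivity) fun n => ?_⟩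
    refine (hz' n).trans ?_
    have := norm_c0_apply x (n + t)
    gcongr
  e := fun n => mkC0 (Pi.single n 1) (tendsto_single n)
  c_e := fun n => rfl
  norm_e := fun n => by
    refine norm_c0_le zero_le_one fun m => ?_
    change ‖(Pi.single n (1 : 𝕜) : ℕ → 𝕜) m‖ ≤ 1
    by_cases h : m = n
    · subst h; simp
    · rw [Pi.single_eq_of_ne h]; simp
  span_dense := by
    rw [Metric.dense_iff]
    intro x ε hε
    have h1 := (tendsto_c0 x)
    rw [Metric.tendsto_atTop] at h1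
    obtain ⟨N, hN⟩ := h1 (ε / 2) (by linarith)
    refine ⟨∑ i ∈ Finset.range N, x i • mkC0 (Pi.single i 1) (tendsto_single i), ?_, ?_⟩
    · rw [Metric.mem_ball, dist_comm, dist_eq_norm]
      refine lt_of_le_of_lt (norm_c0_le (C := ε / 2) (by linarith) fun n => ?_) (by linarith)
      have happ : ∀ s : Finset ℕ, (∑ i ∈ s, x i • mkC0 (Pi.single i (1 : 𝕜)) (tendsto_single i)) n
          = ∑ i ∈ s, x i * (Pi.single i (1 : 𝕜) : ℕ → 𝕜) n := by
        intro s
        induction s using Finset.induction_on with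
        | empty => simp
        | insert a s ha ih =>
          rw [Finset.sum_insert ha, Finset.sum_insert ha, ZeroAtInftyContinuousMap.add_apply, ih]
          rfl
      rw [ZeroAtInftyContinuousMap.sub_apply, happ]
      rcases Nat.lt_or_ge n N with h | h
      · rw [Finset.sum_eq_single n]
        · simp; linarith
        · intro b _ hb
          rw [Pi.single_eq_of_ne (Ne.symm hb), mul_zero]
        · intro h'; exact absurd (Finset.mem_range.2 h) h'
      · rw [Finset.sum_eq_zero, sub_zero]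
        · have := hN n h
          rw [dist_zero_right] at this
          exact this.le
        · intro b hb
          rw [Finset.mem_range] at hb
          rw [Pi.single_eq_of_ne (by omega), mul_zero]
    · refine Submodule.sum_mem _ fun i _ => ?_
      exact Submodule.smul_mem _ _ (Submodule.subset_span ⟨i, rfl⟩)

/-- **Answer to MP_39b2af_an, Q1 (yes, for all the spaces and all `λ ∈ (0, 1]`).** -/
theorem _root_.Pool.Agent.Results.MP_39b2af_an.ExactExponent.result (𝕜 : Type) [RCLike 𝕜]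
    (lam : ℝ) (h0 : 0 < lam) (h1 : lam ≤ 1) :
    (∀ (p : ℝ≥0∞) [Fact (1 ≤ p)], p ≠ ⊤ →
      HasExactShift 𝕜 (lp (fun _ : ℕ => 𝕜) p) (fun x n => x n) lam) ∧
    HasExactShift 𝕜 C₀(ℕ, 𝕜) (fun x n => x n) lam := by
  constructor
  · intro p _ hp
    exact exact_exponent (lpSpace 𝕜 p hp) h0 h1
  · exact exact_exponent (c0Space 𝕜) h0 h1

end Pool.Agent.Results.MP_39b2af_an.ExactExponent
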